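import Mathlib
import Pool.Agent.Q43.DO.Fin
import Pool.Agent.Y142.SI.Fin
import Pool.Agent.Y405.ZO.Frob
import Pool.Agent.Y484.ZI.IntRes
import Pool.Agent.Y726.ZI.Cheb
import Pool.Agent.Y681.ZI.Dens
import Pool.Agent.Y537.ZI.Multi
import Pool.Agent.Y100.ZD.Sub
import Pool.Agent.Y255.SS.LF
import Pool.Agent.Y297.SS.CF
import Pool.Agent.Y708.SS.Loc
import Pool.Agent.Y936.SS.Logr
import Pool.Agent.Y518.SS.Krs
import Pool.Agent.Y737.SS.Chara
import Pool.Agent.Y932.SI.Subf

/-!
# The Mumford-Tate conjecture at 100 percent of the primes `ℓ` for motives of level two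

`T = T_1 ⊕ ... ⊕ T_r` is a polarised rational Hodge structure of level two, twisted to weight zero
(for example the transcendental part of `H^2(X)(1)`, `X` a surface; `c a` says to which summand the
`a`-th basis vector belongs), and `V` is a rational Hodge structure for which the Lie algebra of the
Mumford-Tate group has only the Hodge types `(-1,1)`, `(0,0)`, `(1,-1)` (for example the algebraic
classes in `H^2(X)(1)`, or any Hodge structure in the tensor category generated by the `H^1` of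
abelian varieties).  The Hodge numbers of `T_i` are `(p_i, q_i, p_i)`, with `p_i ≥ 2` prime to `q_i`
(see `T.Big` in the starting files, which also contains `2 p_i^2 (p_i^2 + 1) < (q_i - 2 p_i) (q_i + p_i)`
and: all endomorphisms of `T` are rational scalars on the `T_i`).

For ALL prime numbers `ℓ` the Galois group `Γ` of a field `k`, finitely generated over `ℚ`, acts on the
`ℓ`-adic realizations of `V` and `T` by `α ℓ` and `β ℓ`; if `k` is not a number field, a closed point of
a model gives a homomorphism `s` to `Γ` from the Galois group of a number field `K`.  The Frobenius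
polynomials `P_v` of the `T_i` at the places `v` of `K` of good reduction have rational coefficients and
are independent of `ℓ` (compatibility).  The hypotheses are conditions on the Frobenius polynomials at
finitely many places.  For every `i` there are places `u_0, ..., u_m` of good reduction such that the
roots of `P_u` are simple and no quotient of two of them is a root of unity (`IsRegularPlace`); `F` is
the intersection of the splitting fields of these polynomials, `N = 2 p_i + q_i` is the rank of `T_i`,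
and every automorphism `g` of the algebraic closure of `ℚ` agrees on `F` with an automorphism `w`
(which depends on `g` and on the condition, and may belong to a new place `v` of this type)

* if `N` is even: such that no set of `d` roots of `P_v` is stable under `w`, for `0 < d < N`, and such
  that `w` fixes a root of `P_v`;
* if `N` is odd (so `1` or `-1` is always a root): such that no set of `d` roots of `P_v` is stable
  under `w`, for `1 < d < N - 1`, such that `w` fixes only one root of `P_v`, such that `w` is an even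
  permutation of the roots of `P_v`, and such that `w` is an odd permutation of the roots of `P_v`.

For different `i`, `k` with the same rank there is a place at which some root for `T_i` is not a root
for `T_k` times a root of unity.

**Theorem.**  For all prime numbers `ℓ` outside of a set of natural density zero: the `T_i ⊗ ℂ` are
irreducible for all subgroups of finite index of `Γ`, and the Mumford-Tate conjecture for `V ⊕ T` at
`ℓ` is equivalent to the conjecture for `V` at `ℓ`.  In particular, if `V` consists of classes of type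
`(0, 0)` on which Galois acts through a finite group (the algebraic classes, for `H^2(X)`) then the
Mumford-Tate conjecture for `V ⊕ T` holds at 100 percent of the primes `ℓ`.

Nothing is supposed about the representations at the single primes `ℓ` (except the Hodge-Tate
decomposition, which always exists; `HodgeTate`): no irreducibility or semisimplicity, nothing about
the ranks of the Frobenius tori, about the factors of the `P_v` over `ℚ_ℓ`, or about the places of bad
reduction; the places `v` need not be generic, multiplicative relations between the roots are allowed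
as long as they are not of the form `x ^ m = y ^ m`.  The existence of the elements `w` is a
statement about the Galois groups over `ℚ` of finitely many polynomials.  One expects that for most
`v` the Galois group of `P_v` over `F` is the Weyl group of the orthogonal group (a group of signed
permutations), and such places `v` satisfy all the conditions.

Idea of the proof.  By the seeds' theorem on classes of Frobenius elements (approximation of the
Lie algebras at several primes simultaneously, Krasner's lemma, Chebotarev's theorem; project `Y142`)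
the splitting fields of the `P_v` are as independent as possible, so at 100 percent of the `ℓ` the
Frobenius element of `ℓ` acts on the roots of some `P_v` as one of the `w`.  Hence there are `P_v` without
factors of degree `d` over `ℚ_ℓ`, and so on.  For odd rank, `P_v = (X - ε) R`, and the sign of
the permutation of the roots by the Frobenius element of `ℓ` is the value of the quadratic character
at `(-1)^((N - 1) / 2) R(1) R(-1)`, which is the discriminant of the orthogonal complement of the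
eigenvector for `ε`.  So this discriminant is a square in `ℚ_ℓ` for some `v` and no square for others,
and no line can be stable.  The theorem for one prime `ℓ` (`FrobeniusDecides` for the problem
`MP_de8692_ag`) applies.
-/

set_option autoImplicit false

namespace Pool.Agent.Results.MP_bbcdf5_ag.HundredPercentLevelTwo

open MvPolynomial Matrix NumberField IsDedekindDomain Filter Topology
open Pool.Agent.W544.PG (HS BD)

noncomputable section

section groups

variable {ι : Type} [Fintype ι] [DecidableEq ι]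

/-- The value of a polynomial in the entries at a matrix. -/
def value {F : Type} [CommRing F] [Algebra F ℂ] (g : Matrix ι ι ℂ)
    (f : MvPolynomial (ι × ι) F) : ℂ :=
  aeval (fun q : ι × ι => g q.1 q.2) f

/-- `G` is the set of complex points of an algebraic subgroup over `ℚ` of the general linear
group. -/
def IsQGroup (G : Set (Matrix ι ι ℂ)) : Prop :=
  (∃ P : Set (MvPolynomial (ι × ι) ℚ), ∀ g, g ∈ G ↔ g.det ≠ 0 ∧ ∀ f ∈ P, value g f = 0) ∧
  1 ∈ G ∧ (∀ a ∈ G, ∀ b ∈ G, a * b ∈ G) ∧ ∀ a ∈ G, a⁻¹ ∈ G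

/-- The complex points of the Mumford-Tate group: the smallest algebraic subgroup over `ℚ` which
contains `h z` for all `z`. -/
def mumfordTate (h : ℂ → Matrix ι ι ℂ) : Set (Matrix ι ι ℂ) :=
  {g | ∀ G, IsQGroup G → (∀ z, z ≠ 0 → h z ∈ G) → g ∈ G}

/-- The Lie algebra of the Mumford-Tate group (over the complex numbers): the tangent space at
`1`. -/
def lieMumfordTate (h : ℂ → Matrix ι ι ℂ) : Set (Matrix ι ι ℂ) :=
  {y | ∀ f : MvPolynomial (ι × ι) ℚ, (∀ m ∈ mumfordTate h, value m f = 0) →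
    ∑ x : ι × ι, y x.1 x.2 * value (1 : Matrix ι ι ℂ) (pderiv x f) = 0}

variable {ℓ : ℕ} [Fact ℓ.Prime] {Γ : Type} [Group Γ]

/-- The polynomials over the complex numbers which vanish on the image of a subgroup of finite
index (with `ℚ_ℓ` embedded by `j`): the equations of the identity component of the Zariski closure
of `ρ(Γ)`. -/
def Vanishes (j : ℚ_[ℓ] →+* ℂ) (ρ : Γ →* Matrix ι ι ℚ_[ℓ]) (f : MvPolynomial (ι × ι) ℂ) : Prop :=
  ∃ Δ : Subgroup Γ, Δ.FiniteIndex ∧ ∀ s ∈ Δ, value ((ρ s).map j) f = 0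

/-- The complex points of the identity component of the Zariski closure of `ρ(Γ)`. -/
def monodromy (j : ℚ_[ℓ] →+* ℂ) (ρ : Γ →* Matrix ι ι ℚ_[ℓ]) : Set (Matrix ι ι ℂ) :=
  {g | ∀ f, Vanishes j ρ f → value g f = 0}

/-- The complex Lie algebra of the Zariski closure of `ρ(Γ)`: the tangent space at `1`. -/
def lieMonodromy (j : ℚ_[ℓ] →+* ℂ) (ρ : Γ →* Matrix ι ι ℚ_[ℓ]) : Set (Matrix ι ι ℂ) :=
  {y | ∀ f, Vanishes j ρ f →
    ∑ x : ι × ι, y x.1 x.2 * value (1 : Matrix ι ι ℂ) (pderiv x f) = 0}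

/-- The Mumford-Tate conjecture: the two groups agree. -/
def MumfordTateConjecture (j : ℚ_[ℓ] →+* ℂ) (h : ℂ → Matrix ι ι ℂ)
    (ρ : Γ →* Matrix ι ι ℚ_[ℓ]) : Prop :=
  ∀ g : Matrix ι ι ℂ, g.det ≠ 0 → (g ∈ monodromy j ρ ↔ g ∈ mumfordTate h)

end groups

variable {κ : Type} [Fintype κ] [DecidableEq κ] {n r : ℕ}

/-- A rational Hodge structure on `ℚ^κ`: the projections `e (a, b)` to the pieces of type `(a, b)`
of `ℂ^κ`; they are exchanged by complex conjugation, and the pieces of every weight are defined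
over `ℚ`. -/
structure RationalHodgeStructure (κ : Type) [Fintype κ] [DecidableEq κ] where
  /-- the types which occur -/
  types : Finset (ℤ × ℤ)
  /-- the projections -/
  e : ℤ × ℤ → Matrix κ κ ℂ
  mul : ∀ a ∈ types, ∀ b ∈ types, e a * e b = if a = b then e a else 0
  sum : ∑ a ∈ types, e a = 1
  conj : ∀ a ∈ types, a.swap ∈ types ∧ (e a).map (starRingEnd ℂ) = e a.swap
  weight : ∀ w : ℤ, ∃ P : Matrix κ κ ℚ,
    ∑ a ∈ types with a.1 + a.2 = w, e a = P.map (algebraMap ℚ ℂ)

/-- The action of `ℂ^×`: multiplication by `z ^ (-a) * conj z ^ (-b)` on the piece of type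
`(a, b)`. -/
def RationalHodgeStructure.h (V : RationalHodgeStructure κ) (z : ℂ) : Matrix κ κ ℂ :=
  ∑ a ∈ V.types, (z ^ (-a.1) * starRingEnd ℂ z ^ (-a.2)) • V.e a

/-- The operator which is `a - b` on the piece of type `(a, b)`. -/
def RationalHodgeStructure.X (V : RationalHodgeStructure κ) : Matrix κ κ ℂ :=
  ∑ a ∈ V.types, ((a.1 - a.2 : ℤ) : ℂ) • V.e a

/-- The Lie algebra of the Mumford-Tate group of `V` has only the Hodge types `(-1,1)`, `(0,0)`,
`(1,-1)`: the eigenvalues of the commutator with `V.X` on it are `-2`, `0`, `2`. -/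
def RationalHodgeStructure.AbelianType (V : RationalHodgeStructure κ) : Prop :=
  ∀ y ∈ lieMumfordTate V.h, ⁅V.X, ⁅V.X, ⁅V.X, y⁆⁆⁆ = (4 : ℂ) • ⁅V.X, y⁆

/-- The action of `ℂ^×` on `V ⊕ T`: on `T` it is multiplication by `conj z / z`, `1`, `z / conj z`
on the parts where `T.x` is `1`, `0`, `-1`. -/
def hodge (V : RationalHodgeStructure κ) (T : HS n) (z : ℂ) :
    Matrix (κ ⊕ Fin n) (κ ⊕ Fin n) ℂ :=
  fromBlocks (V.h z) 0 0 (1 + ((starRingEnd ℂ z / z - 1) / 2) • (T.x * T.x + T.x) +
    ((z / starRingEnd ℂ z - 1) / 2) • (T.x * T.x - T.x))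

variable {ℓ : ℕ} [Fact ℓ.Prime] {Γ : Type} [Group Γ]

/-- An `ℓ`-adic integral matrix as a matrix over `ℚ_ℓ`. -/
def rat (g : Matrix (Fin n) (Fin n) ℤ_[ℓ]) : Matrix (Fin n) (Fin n) ℚ_[ℓ] :=
  g.map (algebraMap ℤ_[ℓ] ℚ_[ℓ])

/-- The representation `α ⊕ β` of the Galois group on `V ⊕ T`. -/
def galois (α : Γ →* Matrix κ κ ℚ_[ℓ]) (β : Γ →* Matrix (Fin n) (Fin n) ℤ_[ℓ]) :
    Γ →* Matrix (κ ⊕ Fin n) (κ ⊕ Fin n) ℚ_[ℓ] where
  toFun σ := fromBlocks (α σ) 0 0 (rat (β σ))
  map_one' := (Pool.Agent.Y95.MT.tot α β).map_one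
  map_mul' := (Pool.Agent.Y95.MT.tot α β).map_mul

/-- The intersection form over `ℚ_ℓ`. -/
def form (ℓ : ℕ) [Fact ℓ.Prime] (T : HS n) : Matrix (Fin n) (Fin n) ℚ_[ℓ] :=
  T.Q.map (algebraMap ℚ ℚ_[ℓ])

/-- The space `T_i ⊗ ℂ`. -/
def part (c : Fin n → Fin r) (i : Fin r) : Submodule ℂ (Fin n → ℂ) where
  carrier := {w | ∀ a, c a ≠ i → w a = 0}
  zero_mem' := fun _ _ => rfl
  add_mem' := by
    intro x y hx hy a ha
    rw [Pi.add_apply, hx a ha, hy a ha, add_zero]
  smul_mem' := by
    intro z x hx a ha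
    rw [Pi.smul_apply, hx a ha, smul_zero]

/-- A Hodge-Tate operator for the representation on `V ⊕ T`: an element `(X, D)` of the complex Lie
algebra of the Zariski closure of the image of Galois such that `D` has the eigenvalues `1`, `0`,
`-1`, the eigenvalues `1` and `-1` together with multiplicity `2 p_i` on `T_i ⊗ ℂ`, and such that
the commutator with `X` has the eigenvalues `-1`, `0`, `1` on the Lie algebra of the Zariski
closure of the image of Galois in `GL(V)`.  Over `C_ℓ` such an operator exists by theorems of Sen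
and Faltings (and of Faltings and Deligne on abelian varieties for the last property). -/
def HodgeTate (c : Fin n → Fin r) (p : Fin r → ℕ) (j : ℚ_[ℓ] →+* ℂ)
    (α : Γ →* Matrix κ κ ℚ_[ℓ]) (β : Γ →* Matrix (Fin n) (Fin n) ℤ_[ℓ]) : Prop :=
  ∃ (X : Matrix κ κ ℂ) (D : Matrix (Fin n) (Fin n) ℂ),
    fromBlocks X 0 0 D ∈ lieMonodromy j (galois α β) ∧ D * D * D = D ∧
    (∀ i, ∑ a with c a = i, (D * D) a a = 2 * (p i : ℂ)) ∧
    ∀ y ∈ lieMonodromy j α, ⁅X, ⁅X, ⁅X, y⁆⁆⁆ = ⁅X, y⁆

/-- `T_i ⊗ ℂ` is irreducible for every subgroup of finite index of `Γ`. -/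
def AbsolutelyIrreducible (c : Fin n → Fin r) (j : ℚ_[ℓ] →+* ℂ)
    (β : Γ →* Matrix (Fin n) (Fin n) ℤ_[ℓ]) (i : Fin r) : Prop :=
  ∀ Δ : Subgroup Γ, Δ.FiniteIndex → ∀ W : Submodule ℂ (Fin n → ℂ), W ≤ part c i →
    (∀ σ ∈ Δ, ∀ w ∈ W, (rat (β σ)).map j *ᵥ w ∈ W) → W = ⊥ ∨ W = part c i

/-- The characteristic polynomial of `σ` on `T_i` over `ℚ_ℓ`. -/
def frobenius (c : Fin n → Fin r) (β : Γ →* Matrix (Fin n) (Fin n) ℤ_[ℓ]) (i : Fin r) (σ : Γ) :
    Polynomial ℚ_[ℓ] :=
  ((rat (β σ)).submatrix (fun a : {a // c a = i} => a.1) (fun a => a.1)).charpoly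

/-! ### Frobenius elements and the action on the roots -/

/-- the absolute Galois group of `K`, with its profinite (Krull) topology -/
abbrev AbsoluteGaloisGroup (K : Type) [Field K] : Type := Gal(AlgebraicClosure K/K)

/-- `σ` is an (arithmetic) Frobenius element at the prime `v` of the number field `K`: for some prime
`Q` of the algebraic closure above `v` it acts on the residue field as `x ↦ x ^ N(v)` -/
def IsFrobenius {K : Type} [Field K] [NumberField K] (v : HeightOneSpectrum (𝓞 K))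
    (σ : AbsoluteGaloisGroup K) : Prop :=
  ∃ Q : Ideal (𝓞 (AlgebraicClosure K)), Q.IsMaximal ∧
    Q.comap (algebraMap (𝓞 K) (𝓞 (AlgebraicClosure K))) = v.asIdeal ∧
    ∀ x : 𝓞 (AlgebraicClosure K), σ • x - x ^ Ideal.absNorm v.asIdeal ∈ Q

/-- The Galois side at one prime `ℓ`: `β` preserves the form and the decomposition of `T`, it is
continuous on the Galois group of `K`, and for all `v ∉ S` which are prime to `ℓ` the characteristic
polynomial of the geometric Frobenius elements `σ⁻¹` (`σ` arithmetic) at `v` on `T_i` is `P i v`. -/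
def IsRealization {K : Type} [Field K] [NumberField K] (s : AbsoluteGaloisGroup K →* Γ) (T : HS n)
    (c : Fin n → Fin r) (β : Γ →* Matrix (Fin n) (Fin n) ℤ_[ℓ]) (S : Set (HeightOneSpectrum (𝓞 K)))
    (P : Fin r → HeightOneSpectrum (𝓞 K) → Polynomial ℚ) : Prop :=
  (∀ σ, (rat (β σ))ᵀ * form ℓ T * rat (β σ) = form ℓ T) ∧ (∀ σ, BD c (β σ)) ∧
  (Continuous fun σ => β (s σ)) ∧
  ∀ v ∉ S, (ℓ : 𝓞 K) ∉ v.asIdeal → ∀ σ : AbsoluteGaloisGroup K, IsFrobenius v σ →
    ∀ i, frobenius c β i (s σ⁻¹) = (P i v).map (algebraMap ℚ ℚ_[ℓ])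

/-- The roots of `P v` are simple, and different roots have different `n`-th powers for all
`n > 0`. -/
def IsRegularPlace {K : Type} [Field K] [NumberField K]
    (S : Set (HeightOneSpectrum (𝓞 K))) (P : HeightOneSpectrum (𝓞 K) → Polynomial ℚ)
    (v : HeightOneSpectrum (𝓞 K)) : Prop :=
  v ∉ S ∧ (P v).Separable ∧ ∀ n : ℕ, 0 < n → ∀ x y : ℂ,
    Polynomial.aeval x (P v) = 0 → Polynomial.aeval y (P v) = 0 → x ^ n = y ^ n → x = y

/-- The splitting field of `Q` in the algebraic closure of `ℚ`. -/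
def splittingField (Q : Polynomial ℚ) : Set (AlgebraicClosure ℚ) :=
  (IntermediateField.adjoin ℚ {x : AlgebraicClosure ℚ | Polynomial.aeval x Q = 0} :
    IntermediateField ℚ (AlgebraicClosure ℚ))

/-- Every `g` agrees on the intersection `F` of the splitting fields of the `P (u k)` with an
automorphism `w` which has the property `Φ` with respect to `P v`, for some regular place `v`. -/
def Realised {K : Type} [Field K] [NumberField K] (S : Set (HeightOneSpectrum (𝓞 K)))
    (P : HeightOneSpectrum (𝓞 K) → Polynomial ℚ) {m : ℕ}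
    (u : Fin (m + 1) → HeightOneSpectrum (𝓞 K))
    (Φ : Polynomial ℚ → AbsoluteGaloisGroup ℚ → Prop) : Prop :=
  ∀ g : AbsoluteGaloisGroup ℚ, ∃ (v : HeightOneSpectrum (𝓞 K)) (w : AbsoluteGaloisGroup ℚ),
    IsRegularPlace S P v ∧ (∀ x, (∀ k, x ∈ splittingField (P (u k))) → w x = g x) ∧ Φ (P v) w

/-- No set of `d` roots of `Q` is stable under `w`. -/
def NoStableSet (d : ℕ) (Q : Polynomial ℚ) (w : AbsoluteGaloisGroup ℚ) : Prop :=
  ∀ R : Set (AlgebraicClosure ℚ), (∀ x ∈ R, Polynomial.aeval x Q = 0) → (∀ x ∈ R, w x ∈ R) →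
    R.ncard ≠ d

/-- `w` fixes a root of `Q`. -/
def FixesRoot (Q : Polynomial ℚ) (w : AbsoluteGaloisGroup ℚ) : Prop :=
  ∃ x : AlgebraicClosure ℚ, Polynomial.aeval x Q = 0 ∧ w x = x

/-- `w` fixes at most one root of `Q`. -/
def FixesAtMostOne (Q : Polynomial ℚ) (w : AbsoluteGaloisGroup ℚ) : Prop :=
  ∀ x y : AlgebraicClosure ℚ, Polynomial.aeval x Q = 0 → Polynomial.aeval y Q = 0 →
    w x = x → w y = y → x = y

/-- `w` acts on the roots of `Q` by a permutation with the sign `e`; `z` is an enumeration of the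
roots. -/
def HasSign (e : ℤˣ) (Q : Polynomial ℚ) (w : AbsoluteGaloisGroup ℚ) : Prop :=
  ∃ (m : ℕ) (z : Fin m → AlgebraicClosure ℚ) (π : Equiv.Perm (Fin m)), Function.Injective z ∧
    (∀ x : AlgebraicClosure ℚ, Polynomial.aeval x Q = 0 ↔ ∃ a, z a = x) ∧
    (∀ a, w (z a) = z (π a)) ∧ Equiv.Perm.sign π = e

/-- The conditions on the Frobenius polynomials of one summand of rank `N`. -/
def PlaceConditions {K : Type} [Field K] [NumberField K] (S : Set (HeightOneSpectrum (𝓞 K)))
    (P : HeightOneSpectrum (𝓞 K) → Polynomial ℚ) {m : ℕ}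
    (u : Fin (m + 1) → HeightOneSpectrum (𝓞 K)) (N : ℕ) : Prop :=
  (∀ k, IsRegularPlace S P (u k)) ∧
  (Even N → (∀ d, 0 < d → d < N → Realised S P u (NoStableSet d)) ∧ Realised S P u FixesRoot) ∧
  (Odd N → (∀ d, 1 < d → d + 1 < N → Realised S P u (NoStableSet d)) ∧
    Realised S P u FixesAtMostOne ∧ ∀ e : ℤˣ, Realised S P u (HasSign e))

/-- At some place some root of `P` is not a root of `P'` times a root of unity. -/
def DifferentPlace {K : Type} [Field K] [NumberField K] (S : Set (HeightOneSpectrum (𝓞 K)))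
    (P P' : HeightOneSpectrum (𝓞 K) → Polynomial ℚ) : Prop :=
  ∃ v ∉ S, ∃ x : ℂ, Polynomial.aeval x (P v) = 0 ∧
    ∀ y : ℂ, Polynomial.aeval y (P' v) = 0 → ∀ m : ℕ, 0 < m → x ^ m ≠ y ^ m

/-- The set `A` of prime numbers has natural density zero. -/
def HasDensityZero (A : Set ℕ) : Prop :=
  Tendsto (fun n : ℕ => (Nat.card {ℓ : ℕ // ℓ ≤ n ∧ ℓ ∈ A} : ℝ) / (Nat.primeCounting n : ℝ))
    atTop (𝓝 0)

end

/-- **The Mumford-Tate conjecture at 100 percent of the primes `ℓ` for motives of level two**, from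
conditions on finitely many Frobenius polynomials. -/
theorem result {κ : Type} [Fintype κ] [DecidableEq κ] {n r : ℕ} {Γ : Type} [Group Γ]
    -- the Hodge structures
    (T : HS n) (c : Fin n → Fin r) (p q : Fin r → ℕ) (hT : T.Big c p q)
    (hp : ∀ i, 2 ≤ p i) (hpq : ∀ i, Nat.Coprime (p i) (q i))
    (V : RationalHodgeStructure κ) (hV : V.AbelianType)
    -- the Galois representations
    (K : Type) [Field K] [NumberField K] (s : AbsoluteGaloisGroup K →* Γ)
    (S : Set (HeightOneSpectrum (𝓞 K))) (hS : S.Finite)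
    (P : Fin r → HeightOneSpectrum (𝓞 K) → Polynomial ℚ)
    (α : ∀ (ℓ : ℕ) [Fact ℓ.Prime], Γ →* Matrix κ κ ℚ_[ℓ])
    (β : ∀ (ℓ : ℕ) [Fact ℓ.Prime], Γ →* Matrix (Fin n) (Fin n) ℤ_[ℓ])
    (hβ : ∀ (ℓ : ℕ) [Fact ℓ.Prime], IsRealization s T c (β ℓ) S P)
    (j : ∀ (ℓ : ℕ) [Fact ℓ.Prime], ℚ_[ℓ] →+* ℂ)
    (hHT : ∀ (ℓ : ℕ) [Fact ℓ.Prime], HodgeTate c p (j ℓ) (α ℓ) (β ℓ))
    -- the conditions on the Frobenius polynomials
    (m : Fin r → ℕ) (u : ∀ i, Fin (m i + 1) → HeightOneSpectrum (𝓞 K))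
    (hP : ∀ i, PlaceConditions S (P i) (u i) (2 * p i + q i))
    (hD : ∀ i k, i ≠ k → 2 * p i + q i = 2 * p k + q k → DifferentPlace S (P i) (P k)) :
    HasDensityZero {ℓ | ∃ _ : Fact ℓ.Prime, ¬ (
      (∀ i, AbsolutelyIrreducible c (j ℓ) (β ℓ) i) ∧
      (MumfordTateConjecture (j ℓ) (hodge V T) (galois (α ℓ) (β ℓ)) ↔
        MumfordTateConjecture (j ℓ) V.h (α ℓ)) ∧
      (V.types = {(0, 0)} → (Set.range (α ℓ)).Finite →
        MumfordTateConjecture (j ℓ) (hodge V T) (galois (α ℓ) (β ℓ))))} := by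
  classical
  -- the tasks
  have hCHEB : Pool.Agent.Y142.ZI.S_CHEB := Pool.Agent.Y726.ZI.t1
  have hLF : Pool.Agent.Y142.SS.S_LF := Pool.Agent.Y255.SS.t
  have hCF : Pool.Agent.Y142.SS.S_CF := Pool.Agent.Y297.SS.t hLF
  have Tk : Q43.DO.Tasks :=
    { loc := Pool.Agent.Y708.SS.Loc.t hCF
      logr := Pool.Agent.Y936.SS.t
      krs := Pool.Agent.Y518.SS.t
      chara := Pool.Agent.Y737.SS.Chara.t
      multi := Pool.Agent.Y537.ZI.t
      frob := Pool.Agent.Y405.ZO.t
      int := Pool.Agent.Y484.ZI.t1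
      dens := Pool.Agent.Y681.ZI.t hCHEB
      sub := Pool.Agent.Y100.ZD.t
      subf := Pool.Agent.Y932.SI.Subf.t hLF hCF }
  have hcard : ∀ i, Fintype.card {a // c a = i} = 2 * p i + q i := by
    intro i
    rw [Fintype.card_subtype, ← hT.rk i]
  have hN0 : ∀ i, 0 < 2 * p i + q i := fun i => by
    have := hp i
    omega
  have hg : ∀ (ℓ : ℕ) [Fact ℓ.Prime], Pool.Agent.Y95.MT.GalT c T.Q (β ℓ) := fun ℓ _ =>
    ⟨(hβ ℓ).1, (hβ ℓ).2.1⟩
  have hfr : ∀ (i : Fin r) (ℓ : ℕ) [Fact ℓ.Prime], ∀ v ∉ S, (ℓ : 𝓞 K) ∉ v.asIdeal →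
      ∀ σ : AbsoluteGaloisGroup K, Pool.Agent.Y142.ZO.IsFrobenius v σ →
        Q43.FD.fr c (β ℓ) i (s σ⁻¹) = (P i v).map (algebraMap ℚ ℚ_[ℓ]) :=
    fun i ℓ _ v hv hvℓ σ hσ => (hβ ℓ).2.2.2 v hv hvℓ σ hσ i
  -- regular places
  have hnice : ∀ i v, IsRegularPlace S (P i) v → Pool.Agent.Y142.ZS.NiceP S (P i) v := by
    intro i v hv
    let e : {a // c a = i} ≃ Fin (2 * p i + q i) := Fintype.equivFinOfCardEq (hcard i)
    exact Pool.Agent.Y142.SS.nice_of_complexA
      (fun ℓ _ => Q43.DO.blk s (β ℓ) (hg ℓ) i e)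
      (fun ℓ _ => ⟨Q43.DO.blk_cont s (β ℓ) (hg ℓ) i e (hβ ℓ).2.2.1, fun v hv hvℓ σ hσ => by
        rw [Q43.DO.blk_charpoly]
        exact hfr i ℓ v hv hvℓ σ hσ⟩) hv.1 hv.2.1 hv.2.2
  have hreal : ∀ (i : Fin r) (Φ : Polynomial ℚ → AbsoluteGaloisGroup ℚ → Prop),
      (∀ k, IsRegularPlace S (P i) (u i k)) → Realised S (P i) (u i) Φ →
      Q43.DO.Realised S (P i) (u i) (fun Q => {w | Φ Q w}) := by
    intro i Φ hu hR g
    obtain ⟨v, w, hv, hw, hΦ⟩ := hR g
    refine ⟨v, hnice i v hv, w, hΦ, ?_⟩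
    have hLf : ∀ (k : Fin (m i + 1)) (x : AlgebraicClosure ℚ),
        x ∈ Pool.Agent.Y142.ZI.Lf (P i (u i k)) → x ∈ splittingField (P i (u i k)) := by
      intro k x hx
      have h2 : (P i (u i k)).rootSet (AlgebraicClosure ℚ) =
          {x : AlgebraicClosure ℚ | Polynomial.aeval x (P i (u i k)) = 0} := by
        ext y
        exact Polynomial.mem_rootSet_of_ne (hu k).2.1.ne_zero
      unfold Pool.Agent.Y142.ZI.Lf at hx
      rw [h2] at hx
      exact hx
    refine Pool.Agent.Y142.SS.field_mem _ (fun k => (hu k).2.1.ne_zero) fun x hx => ?_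
    rw [AlgEquiv.mul_apply, ← hw x fun k => hLf k x (hx k), ← AlgEquiv.mul_apply, inv_mul_cancel,
      AlgEquiv.one_apply]
  have hC : ∀ i, Q43.DO.CondC S (P i) (u i) (2 * p i + q i) := by
    intro i
    obtain ⟨h1, h2, h3⟩ := hP i
    refine ⟨fun k => hnice i _ (h1 k), fun hN => ?_, fun hN => ?_⟩
    · obtain ⟨h4, h5⟩ := h2 hN
      exact ⟨fun d hd hdN => hreal i _ h1 (h4 d hd hdN), hreal i _ h1 h5⟩
    · obtain ⟨h4, h5, h6⟩ := h3 hN
      exact ⟨fun d hd hdN => hreal i _ h1 (h4 d hd hdN), hreal i _ h1 h5,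
        fun e => hreal i _ h1 (h6 e)⟩
  -- the exceptional sets
  have hA : ∀ i ∈ (Finset.univ : Finset (Fin r)), Pool.Agent.Y142.ZI.DensityZero
      {ℓ | ∃ _ : Fact ℓ.Prime, ¬ Q43.FD.FrC c (j ℓ) (β ℓ) i (2 * p i + q i)} := fun i _ =>
    Q43.DO.dens_block Tk hS s β hg hT.bQ (fun ℓ _ => (hβ ℓ).2.2.1) i (hcard i) (hN0 i)
      (fun ℓ _ => hfr i ℓ) (hC i) j
  have hB : ∀ x ∈ (Finset.univ : Finset (Fin r × Fin r)).filter
      (fun x => x.1 ≠ x.2 ∧ 2 * p x.1 + q x.1 = 2 * p x.2 + q x.2),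
      Pool.Agent.Y142.ZI.DensityZero
        {ℓ | ∃ _ : Fact ℓ.Prime, ¬ Q43.FD.DiffC c (j ℓ) (β ℓ) x.1 x.2} := by
    intro x hx
    rw [Finset.mem_filter] at hx
    exact Q43.DO.dens_diff s β x.1 x.2 (fun ℓ _ => hfr x.1 ℓ) (fun ℓ _ => hfr x.2 ℓ)
      (hD x.1 x.2 hx.2.1 hx.2.2) j
  refine ((Q43.DO.dz_finset _ _ hA).union (Q43.DO.dz_finset _ _ hB)).mono ?_
  rintro ℓ ⟨hℓp, hno⟩
  by_contra hc
  rw [Set.mem_union, not_or] at hc
  obtain ⟨hc1, hc2⟩ := hc
  apply hno
  have hF : ∀ i, Q43.FD.FrC c (j ℓ) (β ℓ) i (2 * p i + q i) := by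
    intro i
    by_contra h
    exact hc1 ⟨i, Finset.mem_univ i, hℓp, h⟩
  have hDf : ∀ i k, i ≠ k → 2 * p i + q i = 2 * p k + q k →
      Q43.FD.DiffC c (j ℓ) (β ℓ) i k := by
    intro i k hik hr
    by_contra h
    exact hc2 ⟨(i, k), by rw [Finset.mem_filter]; exact ⟨Finset.mem_univ _, hik, hr⟩, hℓp, h⟩
  obtain ⟨X, D, hXD, hD3, htr, hX⟩ := hHT ℓ
  have hI : ∀ i, Q43.HTM.Irr c (Q43.HTM.Rj (β ℓ) (j ℓ)) i := fun i =>
    Q43.FD.irr_block (hg ℓ) hT.bQ (by rw [hcard]; exact hF i)
  have hN : ∀ i k, i ≠ k → Q43.HTM.NonIso c (Q43.HTM.Rj (β ℓ) (j ℓ)) i k := fun i k hik =>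
    Q43.FD.noniso_block (hg ℓ) (hI i) (hI k) (by rw [hcard, hcard]; exact hDf i k hik)
  have hmain : MumfordTateConjecture (j ℓ) (hodge V T) (galois (α ℓ) (β ℓ)) ↔
      MumfordTateConjecture (j ℓ) V.h (α ℓ) := by
    have h := Q43.HTM.main_HT (T := T) (c := c) (p := p) (q := q) (v := α ℓ) (β := β ℓ)
      (j := j ℓ) hT hp hpq ⟨V.types, V.e, V.mul, V.sum, V.conj, V.weight⟩ hV (hg ℓ) hXD hD3 htr hX
    exact ⟨fun h1 => (h.1 h1).1, fun h1 => h.2 ⟨h1, hI, hN⟩⟩
  refine ⟨hI, hmain, fun h1 h2 => hmain.2 ?_⟩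
  exact Q43.HTM.MTCj_types (v := α ℓ) (j := j ℓ)
    ⟨V.types, V.e, V.mul, V.sum, V.conj, V.weight⟩ h1 h2

end Pool.Agent.Results.MP_bbcdf5_ag.HundredPercentLevelTwo
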